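import Pool.Agent.Lib.MP_479b2c_co.Final

set_option autoImplicit false

/-!
# Local growth of `m(n, r)` (MP_479b2c_co)

`m n r` is the fewest edges of an `n`-uniform hypergraph that has a monochromatic edge under
every `r`-colouring (same wording as in the frozen statement).  For every `r ≥ 2` the sequence
`m(n, r) / r ^ n` varies slowly on a logarithmic scale, uniformly in the position `n`:

* `m(n + j, r)` and `r ^ j * m(n, r)` differ at most by the factor `C * (j * (1 + log j)) ^ 2`
  for all `n, j ≥ 1`, with `C` depending on `r` only (for `j = 1`: the ratio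
  `m(n + 1, r) / m(n, r)` stays between two positive constants);
* hence the geometric mean of `j` consecutive ratios tends to `r` as `j → ∞`, uniformly in the
  position `n`.
-/

namespace Pool.Agent.Results.MP_479b2c_co.LocalGrowth

open Pool.Agent.Lib.MP_479b2c_co Filter

theorem result :
    ∀ m : ℕ → ℕ → ℕ,
      (∀ n r : ℕ, m n r = sInf {k : ℕ | ∃ H : Finset (Finset ℕ), H.card = k ∧
          (∀ e ∈ H, e.card = n) ∧
          ∀ f : ℕ → Fin r, ∃ e ∈ H, ∃ i : Fin r, ∀ x ∈ e, f x = i}) →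
      ∀ r : ℕ, 2 ≤ r →
        -- the two sided local growth inequality
        (∃ C : ℝ, 0 < C ∧ ∀ n j : ℕ, 1 ≤ n → 1 ≤ j →
          (m (n + j) r : ℝ) ≤ C * (j * (1 + Real.log j)) ^ 2 * (r : ℝ) ^ j * m n r ∧
          (r : ℝ) ^ j * m n r ≤ C * (j * (1 + Real.log j)) ^ 2 * m (n + j) r) ∧
        -- the consecutive ratio is bounded above and away from zero
        (∃ C : ℝ, 0 < C ∧ ∀ n : ℕ, 1 ≤ n →
          1 / C ≤ (m (n + 1) r : ℝ) / m n r ∧ (m (n + 1) r : ℝ) / m n r ≤ C) ∧
        -- the geometric mean of `j` consecutive ratios tends to `r`, uniformly in the position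
        (∀ ε : ℝ, 0 < ε → ε < r → ∃ J : ℕ, ∀ n j : ℕ, 1 ≤ n → J ≤ j →
          (r - ε) ^ j ≤ (m (n + j) r : ℝ) / m n r ∧
          (m (n + j) r : ℝ) / m n r ≤ (r + ε) ^ j) := by
  intro m' hm' r hr
  have hmm : ∀ n r, m' n r = m n r := fun n r => hm' n r
  simp only [hmm]
  obtain ⟨C, hC, hgrow⟩ := local_growth r hr
  have hr0 : (0 : ℝ) < r := by positivity
  have hmpos : ∀ n, 1 ≤ n → (0 : ℝ) < m n r := by
    intro n hn
    have h1 := m_lower (n := n) (r := r) (by omega) hn
    have h2 : (0 : ℝ) < (r : ℝ) ^ n := by positivity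
    by_contra h3
    push Not at h3
    nlinarith
  refine ⟨⟨C, hC, hgrow⟩, ⟨C * r, by positivity, ?_⟩, ?_⟩
  · intro n hn
    obtain ⟨h1, h2⟩ := hgrow n 1 hn le_rfl
    simp only [Nat.cast_one, Real.log_one, add_zero, mul_one, one_pow, pow_one] at h1 h2
    have hp := hmpos n hn
    have hr1 : (1 : ℝ) ≤ r := by exact_mod_cast (by omega : 1 ≤ r)
    constructor
    · rw [div_le_div_iff₀ (by positivity) hp]
      have h3 : (m n r : ℝ) ≤ r * m n r := le_mul_of_one_le_left hp.le hr1
      have h4 : C * (m (n + 1) r : ℝ) ≤ C * r * m (n + 1) r := by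
        apply mul_le_mul_of_nonneg_right _ (Nat.cast_nonneg _)
        exact le_mul_of_one_le_right hC.le hr1
      linarith
    · rw [div_le_iff₀ hp]
      exact h1
  · intro ε hε hεr
    -- `C (j (1 + log j))^2 ≤ a ^ j` eventually, for every `a > 1`
    have hev : ∀ a : ℝ, 1 < a → ∀ᶠ j : ℕ in atTop,
        C * (j * (1 + Real.log j)) ^ 2 ≤ a ^ j := by
      intro a ha
      have h1 := tendsto_pow_const_div_const_pow_of_one_lt 4 ha
      have h2 : ∀ᶠ j : ℕ in atTop, (j : ℝ) ^ 4 / a ^ j < 1 / C :=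
        (tendsto_order.1 h1).2 _ (by positivity)
      filter_upwards [h2, eventually_ge_atTop 1] with j hj hj1
      have haj : 0 < a ^ j := by positivity
      have hj1r : (1 : ℝ) ≤ j := by exact_mod_cast hj1
      have h3 : 1 + Real.log j ≤ j := by
        have := Real.log_le_sub_one_of_pos (show (0 : ℝ) < j by linarith)
        linarith
      have h0 : 0 ≤ Real.log j := Real.log_nonneg hj1r
      rw [div_lt_div_iff₀ haj hC] at hj
      have h4 : ((j : ℝ) * (1 + Real.log j)) ^ 2 ≤ (j : ℝ) ^ 4 := by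
        calc ((j : ℝ) * (1 + Real.log j)) ^ 2 ≤ ((j : ℝ) * j) ^ 2 := by
              apply pow_le_pow_left₀ (by positivity)
              exact mul_le_mul_of_nonneg_left h3 (by linarith)
          _ = (j : ℝ) ^ 4 := by ring
      have h5 := mul_le_mul_of_nonneg_left h4 hC.le
      linarith
    have e1 := hev ((r + ε) / r) (by rw [one_lt_div hr0]; linarith)
    have e2 := hev (r / (r - ε)) (by rw [one_lt_div (by linarith)]; linarith)
    obtain ⟨J, hJ⟩ := Filter.eventually_atTop.1 (e1.and e2)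
    refine ⟨max J 1, ?_⟩
    intro n j hn hj
    obtain ⟨b1, b2⟩ := hJ j ((le_max_left _ _).trans hj)
    obtain ⟨h1, h2⟩ := hgrow n j hn ((le_max_right _ _).trans hj)
    have hp := hmpos n hn
    have hpj := hmpos (n + j) (by omega)
    have hrj : (0 : ℝ) < (r : ℝ) ^ j := by positivity
    have hrε : 0 < (r : ℝ) - ε := by linarith
    constructor
    · rw [le_div_iff₀ hp]
      rw [div_pow, le_div_iff₀ (by positivity)] at b2
      have h3 : (r : ℝ) ^ j * m n r * (r - ε) ^ j ≤ (r : ℝ) ^ j * m (n + j) r := by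
        calc (r : ℝ) ^ j * m n r * (r - ε) ^ j
            ≤ C * (j * (1 + Real.log j)) ^ 2 * m (n + j) r * (r - ε) ^ j :=
              mul_le_mul_of_nonneg_right h2 (by positivity)
          _ = C * (j * (1 + Real.log j)) ^ 2 * (r - ε) ^ j * m (n + j) r := by ring
          _ ≤ (r : ℝ) ^ j * m (n + j) r := mul_le_mul_of_nonneg_right b2 hpj.le
      have h4 : (r : ℝ) ^ j * ((r - ε) ^ j * m n r) ≤ (r : ℝ) ^ j * m (n + j) r := by
        calc (r : ℝ) ^ j * ((r - ε) ^ j * m n r) = (r : ℝ) ^ j * m n r * (r - ε) ^ j := by ring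
          _ ≤ _ := h3
      exact le_of_mul_le_mul_left h4 hrj
    · rw [div_le_iff₀ hp]
      rw [div_pow, le_div_iff₀ hrj] at b1
      calc (m (n + j) r : ℝ) ≤ C * (j * (1 + Real.log j)) ^ 2 * (r : ℝ) ^ j * m n r := h1
        _ ≤ (r + ε) ^ j * m n r := mul_le_mul_of_nonneg_right b1 hp.le

end Pool.Agent.Results.MP_479b2c_co.LocalGrowth
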